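import Mathlib
import Pool.Agent.Y530.TN.Stm

/-!
# Choice of independent bars
-/

set_option autoImplicit false

namespace Pool.Agent.Y71.TN.Pick

open Finset Module Pool.Agent.W824.BJ Pool.Agent.Y530.BB Pool.Agent.Y530.TN

theorem gb_anti {V B : Type} [Fintype V] [Fintype B] {β : V → B} {F F' : Finset (Sym2 V)}
    (h : F ⊆ F') : gb β F' ≤ gb β F := Submodule.finrank_mono (BM_anti h _)

theorem brI_mono {V : Type} {n : ℕ} {I J : Finset (Fin n)} (h : I ⊆ J) (A Bb : Fin n → V) :
    brI I A Bb ⊆ brI J A Bb := by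
  intro x hx
  obtain ⟨k, hk, rfl⟩ := mem_brI.1 hx
  exact mem_brI.2 ⟨k, h hk, rfl⟩

theorem brI_le {V : Type} {n : ℕ} (I : Finset (Fin n)) (A Bb : Fin n → V) :
    brI I A Bb ⊆ brn A Bb := by
  intro x hx
  obtain ⟨k, hk, rfl⟩ := mem_brI.1 hx
  exact mem_brn.2 ⟨k, rfl⟩

theorem t : S_PICK := by
  intro n V B _ _ _ β F0 A Bb t
  induction t with
  | zero =>
    intro _
    refine ⟨∅, rfl, Or.inl ?_⟩
    exact gb_anti Finset.subset_union_left
  | succ t ih =>
    intro ht
    obtain ⟨I, hI, hor⟩ := ih (by omega)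
    by_cases heq : gb β (F0 ∪ brI I A Bb) = gb β (F0 ∪ brn A Bb)
    · obtain ⟨k, hk⟩ : ∃ k, k ∉ I := by
        by_contra hcon
        push Not at hcon
        have h1 : I = univ := Finset.eq_univ_iff_forall.2 hcon
        rw [h1, Finset.card_univ, Fintype.card_fin] at hI
        omega
      refine ⟨insert k I, by rw [Finset.card_insert_of_notMem hk, hI], Or.inr ?_⟩
      apply le_antisymm
      · rw [← heq]
        exact gb_anti (Finset.union_subset_union_right (brI_mono (Finset.subset_insert _ _) A Bb))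
      · exact gb_anti (Finset.union_subset_union_right (brI_le _ A Bb))
    · have hle : gb β (F0 ∪ brI I A Bb) + t ≤ gb β F0 := hor.resolve_right heq
      have hlt : gb β (F0 ∪ brn A Bb) < gb β (F0 ∪ brI I A Bb) :=
        lt_of_le_of_ne (gb_anti (Finset.union_subset_union_right (brI_le _ A Bb))) (Ne.symm heq)
      obtain ⟨k, m, hm, hne⟩ : ∃ k, ∃ m ∈ GB β (F0 ∪ brI I A Bb),
          pr (m (β (A k)) - m (β (Bb k))) (gx V (A k)) (gx V (Bb k)) ≠ 0 := by
        by_contra hcon
        push Not at hcon
        have h1 : GB β (F0 ∪ brI I A Bb) ≤ GB β (F0 ∪ brn A Bb) := by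
          intro m hm u v huv
          rcases Finset.mem_union.1 huv with h | h
          · exact hm u v (Finset.mem_union_left _ h)
          · obtain ⟨k, hk⟩ := mem_brn.1 h
            have h3 := hcon k m hm
            rcases Sym2.eq_iff.1 hk with ⟨rfl, rfl⟩ | ⟨rfl, rfl⟩
            · exact h3
            · rw [pr_symm]
              exact h3
        have h2 := Submodule.finrank_mono h1
        exact absurd hlt (not_lt.2 h2)
      have hkI : k ∉ I := fun h =>
        hne (hm _ _ (Finset.mem_union_right _ (mem_brI.2 ⟨k, h, rfl⟩)))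
      refine ⟨insert k I, by rw [Finset.card_insert_of_notMem hkI, hI], Or.inl ?_⟩
      have hlt2 : GB β (F0 ∪ brI (insert k I) A Bb) < GB β (F0 ∪ brI I A Bb) := by
        refine lt_of_le_not_ge
          (BM_anti (Finset.union_subset_union_right
            (brI_mono (Finset.subset_insert _ _) A Bb)) _) ?_
        intro h1
        exact hne (h1 hm _ _ (Finset.mem_union_right _
          (mem_brI.2 ⟨k, Finset.mem_insert_self _ _, rfl⟩)))
      have h4 : gb β (F0 ∪ brI (insert k I) A Bb) < gb β (F0 ∪ brI I A Bb) :=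
        Submodule.finrank_lt_finrank_of_lt hlt2
      omega

end Pool.Agent.Y71.TN.Pick
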